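import Pool.Agent.V11151.FR.Two

/-!
# MP_688354_co: the numbers `L_d` for all `d ≥ 1`

`E d` is Euclidean `d`-space.  `IsCSPolytope P`: `P` is a convex polytope in `E d` (a bounded
intersection of finitely many closed half-spaces), `P = -P`, and `P` has nonempty interior.
`IsFacet P F`: `F` is a nonempty face of `P` (the intersection of `P` with a supporting hyperplane)
of dimension `d - 1`.  `numFacets P` is the number of facets of `P`.
`Represents P K`: `K` is a finite subset of the boundary of `P` meeting every facet of `P`;
`repNumber P` is the least size of such a `K`.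
`ratios d` is the set of the numbers `repNumber P / numFacets P` over all centrally symmetric
polytopes `P ⊂ E d` with nonempty interior, and `L d` is its supremum.

The theorem: `L 1 = 1`, `L 2 = 1/2`, `L 3 = 2/3` and `L d = 1` for all `d ≥ 4`.
The last two clauses record that the supremum and the minimum in the definitions are genuine.
-/

namespace Pool.Agent.Results.MP_688354_co.AllLd

open FacetRep

theorem result :
    (L 1 = 1 ∧ L 2 = 1 / 2 ∧ L 3 = 2 / 3 ∧ ∀ d : ℕ, 4 ≤ d → L d = 1) ∧
    (∀ d : ℕ, 1 ≤ d → IsLUB (ratios d) (L d)) ∧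
    (∀ (d : ℕ) (P : Set (E d)), IsCSPolytope P →
      {F : Set (E d) | IsFacet P F}.Finite ∧
      (∃ K, Represents P K ∧ K.card = repNumber P) ∧
      ∀ K, Represents P K → repNumber P ≤ K.card) := by
  have hval : L 1 = 1 ∧ L 2 = 1 / 2 ∧ L 3 = 2 / 3 ∧ ∀ d : ℕ, 4 ≤ d → L d = 1 :=
    ⟨L_one, L_two, L_three, fun d hd => L_four hd⟩
  refine ⟨hval, ?_, ?_⟩
  · intro d hd
    have hne : (ratios d).Nonempty := by
      by_contra hcon
      rw [Set.not_nonempty_iff_eq_empty] at hcon
      have h0 : L d = 0 := by
        unfold L
        rw [hcon]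
        exact Real.sSup_empty
      obtain ⟨h1, h2, h3, h4⟩ := hval
      rcases Nat.lt_or_ge d 4 with h | h
      · interval_cases d
        · rw [h1] at h0; norm_num at h0
        · rw [h2] at h0; norm_num at h0
        · rw [h3] at h0; norm_num at h0
      · rw [h4 d h] at h0; norm_num at h0
    exact isLUB_csSup hne ⟨1, fun r hr => ratio_le_one (by omega) r hr⟩
  · intro d P hP
    obtain ⟨A, hA, rfl⟩ := exists_irr hP
    refine ⟨?_, ?_, ?_⟩
    · classical
      exact (Finset.finite_toSet _).subset (facets_finite A)
    · have hne : {k | ∃ K : Finset (E d), Represents (Qset A) K ∧ K.card = k}.Nonempty := by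
        obtain ⟨K, hK⟩ := exists_rep A
        exact ⟨K.card, K, hK, rfl⟩
      exact Nat.sInf_mem hne
    · intro K hK
      exact Nat.sInf_le ⟨K, hK, rfl⟩

end Pool.Agent.Results.MP_688354_co.AllLd
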